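import Pool.Agent.KLT.Pos
import Pool.Agent.Helper1.Layered.Core

/-!
# KLT-C: colouring when every vertex has a scale with few neighbours
PLAN. Choose for every `v` a scale `s v ≤ K` and a type (`true`: few out-neighbours, `false`: few
in-neighbours). Class of `v`: (type, `s v`, `q v / R (s v)`). Two vertices of a class with scale `s`
satisfy `|q v - q w| ≤ R s - 1`, so in a class of type `true` every vertex has fewer than `k s`
out-neighbours: `Pool.Helper1.Layered.col_of_cover` (with `a = k s - 1`, relation `u ≠ v ∧ A u v`,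
`F v` = the out- (in-) neighbours of `v` in the window) gives `2 (k s - 1) + 1 = 2 k s - 1` colours.
Colour of `v`: (type, s, block, colour) in the sigma type with
`2 ∑_s ⌈P / R s⌉ (2 k s - 1)` elements (`q v < P` gives `q v / R s < (P + R s - 1) / R s`).
-/

set_option autoImplicit false

namespace Pool.KLT

open Finset
open scoped Classical

private theorem cls {V : Type} [Fintype V] (A : V → V → Prop) (ρ a : ℕ) (q : V → ℕ)
    (C : Finset V) (hC : ∀ u ∈ C, ∀ v ∈ C, q u ≤ q v + ρ)
    (h : (∀ v ∈ C, cnt A q v ρ ≤ a) ∨ (∀ v ∈ C, cnt (fun x y => A y x) q v ρ ≤ a)) :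
    ∃ c : V → ℕ, (∀ v, c v < 2 * a + 1) ∧
      ∀ u ∈ C, ∀ v ∈ C, (u ≠ v ∧ A u v) → c u ≠ c v := by
  rcases h with h | h
  · refine Pool.Helper1.Layered.col_of_cover (fun u v => u ≠ v ∧ A u v)
      (fun v => if v ∈ C then univ.filter (fun w => A v w ∧ q w ≤ q v + ρ ∧ q v ≤ q w + ρ) else ∅)
      a ?_ (fun v hv => hv.1 rfl) C ?_
    · intro v
      by_cases hv : v ∈ C
      · simp only [hv, if_true]
        exact h v hv
      · simp [hv]
    · intro u hu v hv huv
      left
      simp only [hu, if_true, mem_filter, mem_univ, true_and]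
      exact ⟨huv.2, hC v hv u hu, hC u hu v hv⟩
  · refine Pool.Helper1.Layered.col_of_cover (fun u v => u ≠ v ∧ A u v)
      (fun v => if v ∈ C then univ.filter (fun w => A w v ∧ q w ≤ q v + ρ ∧ q v ≤ q w + ρ) else ∅)
      a ?_ (fun v hv => hv.1 rfl) C ?_
    · intro v
      by_cases hv : v ∈ C
      · simp only [hv, if_true]
        exact h v hv
      · simp [hv]
    · intro u hu v hv huv
      right
      simp only [hv, if_true, mem_filter, mem_univ, true_and]
      exact ⟨huv.2, hC u hu v hv, hC v hv u hu⟩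

theorem col_happy {V : Type} [Fintype V] (A : V → V → Prop) (k R : ℕ → ℕ) (hk : ∀ s, 1 ≤ k s)
    (hR : ∀ s, 1 ≤ R s) (K P : ℕ) (q : V → ℕ) (hq : ∀ v, q v < P)
    (hh : ∀ v, ∃ s ≤ K, cnt A q v (R s - 1) < k s ∨
      cnt (fun a b => A b a) q v (R s - 1) < k s) :
    (SimpleGraph.fromRel A).Colorable
      (2 * ∑ s ∈ range (K + 1), ((P + R s - 1) / R s) * (2 * k s - 1)) := by
  have hch : ∀ v, ∃ s : Fin (K + 1), ∃ t : Bool,
      (t = true → cnt A q v (R s - 1) < k s) ∧
      (t = false → cnt (fun a b => A b a) q v (R s - 1) < k s) := by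
    intro v
    obtain ⟨s, hs, h | h⟩ := hh v
    · exact ⟨⟨s, Nat.lt_succ_of_le hs⟩, true, fun _ => h, fun h' => absurd h' (by simp)⟩
    · exact ⟨⟨s, Nat.lt_succ_of_le hs⟩, false, fun h' => absurd h' (by simp), fun _ => h⟩
  choose s t h1 h2 using hch
  have key : ∀ (b : Bool) (i : Fin (K + 1)) (m : ℕ), ∃ c : V → ℕ,
      (∀ v, c v < 2 * (k i - 1) + 1) ∧
      ∀ u ∈ univ.filter (fun v => t v = b ∧ s v = i ∧ q v / R i = m),
      ∀ v ∈ univ.filter (fun v => t v = b ∧ s v = i ∧ q v / R i = m),
        (u ≠ v ∧ A u v) → c u ≠ c v := by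
    intro b i m
    refine cls A (R i - 1) (k i - 1) q _ ?_ ?_
    · intro u hu v hv
      have hu' := (mem_filter.1 hu).2.2.2
      have hv' := (mem_filter.1 hv).2.2.2
      have hRi := hR i
      have e1 := Nat.div_add_mod (q u) (R i)
      have e2 := Nat.div_add_mod (q v) (R i)
      have e3 := Nat.mod_lt (q u) (show 0 < R i from hRi)
      rw [hu'] at e1
      rw [hv'] at e2
      omega
    · cases b with
      | true =>
        left
        intro v hv
        have hv' := (mem_filter.1 hv).2
        have := h1 v hv'.1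
        rw [hv'.2.1] at this
        omega
      | false =>
        right
        intro v hv
        have hv' := (mem_filter.1 hv).2
        have := h2 v hv'.1
        rw [hv'.2.1] at this
        omega
  choose c hc1 hc2 using key
  have hblk : ∀ v, q v / R (s v) < (P + R (s v) - 1) / R (s v) := by
    intro v
    have hRi := hR (s v)
    have hqv := hq v
    rw [Nat.div_lt_iff_lt_mul (by omega)]
    have e1 := Nat.div_add_mod (P + R (s v) - 1) (R (s v))
    have e3 := Nat.mod_lt (P + R (s v) - 1) (show 0 < R (s v) from hRi)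
    rw [mul_comm] at e1
    omega
  let col : V → Bool × (Σ i : Fin (K + 1), Fin ((P + R i - 1) / R i) × Fin (2 * k i - 1)) :=
    fun v => (t v, ⟨s v, ⟨q v / R (s v), hblk v⟩,
      ⟨c (t v) (s v) (q v / R (s v)) v, by
        have := hc1 (t v) (s v) (q v / R (s v)) v
        have := hk (s v)
        omega⟩⟩)
  have hval : ∀ u v, u ≠ v → A u v → col u ≠ col v := by
    intro u v huv hA heq
    have e1 : t u = t v := congrArg Prod.fst heq
    have e2 : (⟨s u, ⟨q u / R (s u), hblk u⟩, (col u).2.2.2⟩ :
        (Σ i : Fin (K + 1), Fin ((P + R i - 1) / R i) × Fin (2 * k i - 1))) =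
        ⟨s v, ⟨q v / R (s v), hblk v⟩, (col v).2.2.2⟩ := congrArg Prod.snd heq
    have e3 : s u = s v := congrArg Sigma.fst e2
    have e4 : q u / R (s u) = q v / R (s v) :=
      congrArg (fun x : (Σ i : Fin (K + 1), Fin ((P + R i - 1) / R i) × Fin (2 * k i - 1)) =>
        (x.2.1 : ℕ)) e2
    have e5 : c (t u) (s u) (q u / R (s u)) u = c (t v) (s v) (q v / R (s v)) v :=
      congrArg (fun x : (Σ i : Fin (K + 1), Fin ((P + R i - 1) / R i) × Fin (2 * k i - 1)) =>
        (x.2.2 : ℕ)) e2
    refine hc2 (t v) (s v) (q v / R (s v)) u ?_ v ?_ ⟨huv, hA⟩ ?_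
    · simp only [mem_filter, mem_univ, true_and]
      refine ⟨e1, e3, ?_⟩
      rw [← e4, e3]
    · simp
    · rw [e1, e4, e3] at e5
      exact e5
  have hcol : (SimpleGraph.fromRel A).Colorable (Fintype.card
      (Bool × (Σ i : Fin (K + 1), Fin ((P + R i - 1) / R i) × Fin (2 * k i - 1)))) := by
    refine (SimpleGraph.Coloring.mk col ?_).colorable
    intro u v huv
    rw [SimpleGraph.fromRel_adj] at huv
    rcases huv.2 with h | h
    · exact hval u v huv.1 h
    · exact (hval v u (Ne.symm huv.1) h).symm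
  have hcard : Fintype.card
      (Bool × (Σ i : Fin (K + 1), Fin ((P + R i - 1) / R i) × Fin (2 * k i - 1))) =
      2 * ∑ s ∈ range (K + 1), ((P + R s - 1) / R s) * (2 * k s - 1) := by
    rw [Fintype.card_prod, Fintype.card_bool, Fintype.card_sigma, Finset.sum_range]
    congr 1
    refine Finset.sum_congr rfl (fun i _ => ?_)
    rw [Fintype.card_prod, Fintype.card_fin, Fintype.card_fin]
  rw [hcard] at hcol
  exact hcol

end Pool.KLT
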