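import Pool.Agent.KLT.Pos

/-!
# KLT-V: Vitali selection on the line
PLAN. Strong induction on `#F`. Empty: trivial. Otherwise take `b ∈ F` with maximal `b.2`
(`Finset.exists_max_image`), apply the induction hypothesis to
`F' = F.filter (fun a => ρ a.2 + ρ b.2 < |a.1 - b.1|)` (`b ∉ F'` since `ρ ≥ 0`), `C = insert b C'`.
Elements outside `F'` are covered by `b`.
-/

set_option autoImplicit false

namespace Pool.KLT

open Finset
open scoped Classical

theorem vitali (ρ : ℕ → ℕ) (F : Finset (ℤ × ℕ)) :
    ∃ C ⊆ F, (∀ a ∈ C, ∀ b ∈ C, a ≠ b → (ρ a.2 : ℤ) + ρ b.2 < |a.1 - b.1|) ∧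
      ∀ a ∈ F, ∃ b ∈ C, a.2 ≤ b.2 ∧ |a.1 - b.1| ≤ (ρ a.2 : ℤ) + ρ b.2 := by
  induction F using Finset.strongInduction with
  | H F ih =>
    rcases F.eq_empty_or_nonempty with rfl | hne
    · exact ⟨∅, by simp, by simp, by simp⟩
    · obtain ⟨b, hb, hmax⟩ := Finset.exists_max_image F (fun a => a.2) hne
      have hbF : b ∉ F.filter (fun a => (ρ a.2 : ℤ) + ρ b.2 < |a.1 - b.1|) := by
        intro h
        have h2 := (Finset.mem_filter.1 h).2
        simp only [sub_self, abs_zero] at h2
        have : (0 : ℤ) ≤ (ρ b.2 : ℤ) := Int.natCast_nonneg _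
        omega
      have hss : F.filter (fun a => (ρ a.2 : ℤ) + ρ b.2 < |a.1 - b.1|) ⊂ F := by
        refine Finset.ssubset_iff_subset_ne.2 ⟨Finset.filter_subset _ _, ?_⟩
        intro h
        rw [h] at hbF
        exact hbF hb
      obtain ⟨C, hC, hsep, hcov⟩ := ih _ hss
      refine ⟨insert b C, ?_, ?_, ?_⟩
      · intro x hx
        rcases Finset.mem_insert.1 hx with rfl | hx
        · exact hb
        · exact hss.1 (hC hx)
      · intro x hx y hy hxy
        rcases Finset.mem_insert.1 hx with rfl | hx'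
        · rcases Finset.mem_insert.1 hy with rfl | hy'
          · exact absurd rfl hxy
          · have := (Finset.mem_filter.1 (hC hy')).2
            rw [abs_sub_comm, add_comm]
            exact this
        · rcases Finset.mem_insert.1 hy with rfl | hy'
          · exact (Finset.mem_filter.1 (hC hx')).2
          · exact hsep x hx' y hy' hxy
      · intro a ha
        by_cases h : (ρ a.2 : ℤ) + ρ b.2 < |a.1 - b.1|
        · obtain ⟨c, hc, h1, h2⟩ := hcov a (Finset.mem_filter.2 ⟨ha, h⟩)
          exact ⟨c, Finset.mem_insert_of_mem hc, h1, h2⟩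
        · exact ⟨b, Finset.mem_insert_self _ _, hmax a ha, not_lt.1 h⟩

end Pool.KLT
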