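import Mathlib

/-!
# KLT: all oriented trees in digraphs of chromatic number C n log n. Definitions.

Project MP_35582f_co. Part 1: Kuhn's cubical lemma (discrete Brouwer theorem).
Kuhn simplices of dimension `d`: base point `b`, order `σ` of the coordinates, vertices
`vtx b σ 0 = b`, `vtx b σ (j+1) = vtx b σ j + e_(σ j)`, ..., `vtx b σ d = b + 1`.
-/

set_option autoImplicit false

namespace Pool.KLT

open Finset
open scoped Classical

/-- The `j`-th vertex of the Kuhn simplex with base `b` and order `σ`. -/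
def vtx {d : ℕ} (b : Fin d → ℕ) (σ : Equiv.Perm (Fin d)) (j : ℕ) : Fin d → ℕ :=
  fun i => if ((σ.symm i : Fin d) : ℕ) < j then b i + 1 else b i

/-- All labels `0, ..., d` occur among the `d + 1` vertices. -/
def Full {d : ℕ} (c : (Fin d → ℕ) → ℕ) (b : Fin d → ℕ) (σ : Equiv.Perm (Fin d)) : Prop :=
  ∀ m ≤ d, ∃ j ≤ d, c (vtx b σ j) = m

/-- All labels `0, ..., d - 1` occur among the vertices different from the `j`-th one. -/
def Door {d : ℕ} (c : (Fin d → ℕ) → ℕ) (b : Fin d → ℕ) (σ : Equiv.Perm (Fin d)) (j : ℕ) : Prop :=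
  ∀ m < d, ∃ i ≤ d, i ≠ j ∧ c (vtx b σ i) = m

/-- A labelling of the grid `{0..p}^d` as in Kuhn's lemma (reduced labels). -/
structure Lab (d p : ℕ) (c : (Fin d → ℕ) → ℕ) : Prop where
  le : ∀ x : Fin d → ℕ, (∀ i, x i ≤ p) → c x ≤ d
  zero : ∀ x : Fin d → ℕ, (∀ i, x i ≤ p) → ∀ i : Fin d, x i = 0 → c x ≠ (i : ℕ)
  top : ∀ x : Fin d → ℕ, (∀ i, x i ≤ p) → ∀ i : Fin d, x i = p → c x ≤ (i : ℕ)

/-- The set of full simplices. -/
noncomputable def fulls (d p : ℕ) (c : (Fin d → ℕ) → ℕ) :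
    Finset ((Fin d → Fin p) × Equiv.Perm (Fin d)) :=
  univ.filter (fun x => Full c (fun i => (x.1 i : ℕ)) x.2)

/-- The set of doors. -/
noncomputable def doors (d p : ℕ) (c : (Fin d → ℕ) → ℕ) :
    Finset (((Fin d → Fin p) × Equiv.Perm (Fin d)) × Fin (d + 1)) :=
  univ.filter (fun x => Door c (fun i => (x.1.1 i : ℕ)) x.1.2 x.2)

/-- The doors on the boundary: the first vertex is dropped and the facet lies in the upper
boundary of the grid. -/
noncomputable def bdoors (d p : ℕ) (c : (Fin (d + 1) → ℕ) → ℕ) :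
    Finset (((Fin (d + 1) → Fin p) × Equiv.Perm (Fin (d + 1))) × Fin (d + 2)) :=
  (doors (d + 1) p c).filter (fun x => x.2 = 0 ∧ ((x.1.1 (x.1.2 0) : Fin p) : ℕ) + 1 = p)

end Pool.KLT
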