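import Pool.Agent.KLT.Defs

/-!
# KLT: positions. Definitions for part 2

`q : V → ℕ` are the positions of the vertices of a digraph with arc relation `A`.
Scales: `k s = 4 ^ s` neighbours at distance at most `2 * 4 ^ s`.
-/

set_option autoImplicit false

namespace Pool.KLT

open Finset
open scoped Classical

/-- The number of out-neighbours of `v` at distance at most `ρ`. -/
noncomputable def cnt {V : Type} [Fintype V] (A : V → V → Prop) (q : V → ℕ) (v : V) (ρ : ℕ) : ℕ :=
  #(univ.filter (fun w => A v w ∧ q w ≤ q v + ρ ∧ q v ≤ q w + ρ))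

/-- The number of elements of `U` at distance at most `ρ` from `v`. -/
noncomputable def near {V : Type} (U : Finset V) (q : V → ℕ) (v : V) (ρ : ℕ) : ℕ :=
  #(U.filter (fun w => q w ≤ q v + ρ ∧ q v ≤ q w + ρ))

/-- A step from `x` to `y` inside the set `U` of used vertices: `y` is at most `2 * 4 ^ s` below
`x`, and if `s = t + 1 ≥ 1`, then `U` has at least `4 ^ t` elements at distance at most
`2 * 4 ^ t` from `x`. -/
def St {V : Type} (U : Finset V) (q : V → ℕ) (x y : V) : Prop :=
  x ∈ U ∧ y ∈ U ∧ ∃ s : ℕ, q x ≤ q y + 2 * 4 ^ s ∧ ∀ t, s = t + 1 → 4 ^ t ≤ near U q x (2 * 4 ^ t)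

end Pool.KLT
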