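import Pool.Agent.KLT.Kf
import Pool.Agent.KLT.Pos

/-!
# KLT-E: the equilibrium
-/

set_option autoImplicit false

namespace Pool.KLT

open Finset
open scoped Classical

private theorem cnt_le_right {V : Type} [Fintype V] (A : V → V → Prop) {q r : V → ℕ}
    (h : ∀ w, q w ≤ r w ∧ r w ≤ q w + 1) (v : V) (ρ : ℕ) : cnt A r v ρ ≤ cnt A q v (ρ + 1) := by
  unfold cnt
  refine Finset.card_le_card fun w hw => ?_
  rw [Finset.mem_filter] at hw ⊢
  have h1 := h w
  have h2 := h v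
  refine ⟨hw.1, hw.2.1, ?_, ?_⟩
  · have := hw.2.2.1
    omega
  · have := hw.2.2.2
    omega

private theorem cnt_le_left {V : Type} [Fintype V] (A : V → V → Prop) {q r : V → ℕ}
    (h : ∀ w, q w ≤ r w ∧ r w ≤ q w + 1) (v : V) (ρ : ℕ) : cnt A q v ρ ≤ cnt A r v (ρ + 1) := by
  unfold cnt
  refine Finset.card_le_card fun w hw => ?_
  rw [Finset.mem_filter] at hw ⊢
  have h1 := h w
  have h2 := h v
  refine ⟨hw.1, hw.2.1, ?_, ?_⟩
  · have := hw.2.2.1
    omega
  · have := hw.2.2.2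
    omega

theorem equilibrium {V : Type} [Fintype V] (A : V → V → Prop) (k R : ℕ → ℕ) (hR : ∀ s, 1 ≤ R s)
    (K p : ℕ) (hp : 0 < p) :
    ∃ q : V → ℕ, (∀ v, q v < p) ∧
      (∀ v, 0 < q v → ∀ s ≤ K, k s ≤ cnt A q v (R s + 1) ∧
        k s ≤ cnt (fun a b => A b a) q v (R s + 1)) ∧
      (∀ v, q v + 1 < p → ∃ s ≤ K, cnt A q v (R s - 1) < k s ∨
        cnt (fun a b => A b a) q v (R s - 1) < k s) := by
  let up : (V → ℕ) → V → Prop := fun x v =>
    ∀ s ≤ K, k s ≤ cnt A x v (R s) ∧ k s ≤ cnt (fun a b => A b a) x v (R s)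
  obtain ⟨q, hq, hq2⟩ := kuhn p hp (fun x v => ¬ (x v = 0 ∨ (x v ≠ p ∧ up x v)))
    (fun x _ v hv h => h (Or.inl hv))
    (fun x _ v hv h => by
      rcases h with h | h
      · omega
      · exact h.1 hv)
  refine ⟨q, hq, fun v hv s hs => ?_, fun v hv => ?_⟩
  · obtain ⟨⟨r, hr, hr2⟩, -⟩ := hq2 v
    rw [not_not] at hr2
    rcases hr2 with h | h
    · have := (hr v).1
      omega
    · have h1 := h.2 s hs
      exact ⟨h1.1.trans (cnt_le_right A hr v (R s)),
        h1.2.trans (cnt_le_right (fun a b => A b a) hr v (R s))⟩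
  · obtain ⟨-, r, hr, hr2⟩ := hq2 v
    have h1 : ¬ up r v := fun h => hr2 (Or.inr ⟨by have := (hr v).2; omega, h⟩)
    have h2 : ∃ s ≤ K, ¬ (k s ≤ cnt A r v (R s) ∧ k s ≤ cnt (fun a b => A b a) r v (R s)) := by
      by_contra hcon
      push Not at hcon
      exact h1 fun s hs => ⟨(hcon s hs).1, (hcon s hs).2⟩
    obtain ⟨s, hs, h3⟩ := h2
    refine ⟨s, hs, ?_⟩
    have h4 : R s - 1 + 1 = R s := Nat.sub_add_cancel (hR s)
    have h5 := cnt_le_left A hr v (R s - 1)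
    have h6 := cnt_le_left (fun a b => A b a) hr v (R s - 1)
    rw [h4] at h5 h6
    by_cases h7 : k s ≤ cnt A r v (R s)
    · right
      have h8 : ¬ k s ≤ cnt (fun a b => A b a) r v (R s) := fun h => h3 ⟨h7, h⟩
      omega
    · left
      omega

end Pool.KLT
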