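import Pool.Agent.AAT.Defs
import Pool.Agent.Helper1.Layered.Tree

/-!
# KLT-I: parents in an oriented tree
PLAN. `n = k + 1` (there is `r : Fin n`). Parent = the next vertex on a shortest path to `r`,
`d i = dist i r`; edges are covered by `Pool.Helper1.Layered.cover_of_parents` applied to
`G = SimpleGraph.fromRel T.Adj`. (Or use `Pool.Helper1.Layered.exists_parents_rel` with
`X = {r}`.) `G.Adj i (p i)` gives `T.Adj i (p i) ∨ T.Adj (p i) i`.
-/

set_option autoImplicit false

namespace Pool.KLT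

open Finset
open scoped Classical

theorem tree_parents (n : ℕ) (T : Digraph (Fin n)) (hT : Pool.AAT.OTree n T) (r : Fin n) :
    ∃ (p : Fin n → Fin n) (d : Fin n → ℕ), (∀ i, i ≠ r → d (p i) < d i) ∧
      ∀ a b, T.Adj a b → ∃ i, i ≠ r ∧ ((i = a ∧ p i = b) ∨ (i = b ∧ p i = a)) := by
  obtain ⟨h1, h2⟩ := hT
  obtain ⟨k, rfl⟩ : ∃ k, n = k + 1 := ⟨n - 1, by have := r.2; omega⟩
  have hstep : ∀ i : Fin (k + 1), i ≠ r → ∃ j, (SimpleGraph.fromRel T.Adj).dist j r <
      (SimpleGraph.fromRel T.Adj).dist i r ∧ (SimpleGraph.fromRel T.Adj).Adj i j := by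
    intro i hi
    obtain ⟨w, hw⟩ := (h2.1.preconnected i r).exists_walk_length_eq_dist
    cases w with
    | nil => exact absurd rfl hi
    | @cons _ j _ h q =>
      refine ⟨j, ?_, h⟩
      rw [SimpleGraph.Walk.length_cons] at hw
      have h1 := SimpleGraph.dist_le q
      omega
  choose! p hp using hstep
  refine ⟨p, fun i => (SimpleGraph.fromRel T.Adj).dist i r, fun i hi => (hp i hi).1, ?_⟩
  intro a b hab
  refine Pool.Helper1.Layered.cover_of_parents _ h2 r p
    (fun i => (SimpleGraph.fromRel T.Adj).dist i r) hp a b ?_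
  rw [SimpleGraph.fromRel_adj]
  refine ⟨?_, Or.inl hab⟩
  rintro rfl
  exact h1 _ _ hab hab

end Pool.KLT
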