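import Pool.Agent.KLT.W
import Pool.Agent.KLT.H
import Pool.Agent.KLT.I

/-!
# KLT-J: embedding from a vertex of high position
PLAN. `tree_parents` with any root `r` (`n ≥ 1`), then `greedyI` with `W = Fin n`,
`Q i u z := (T.Adj (p i) i → A u z) ∧ (T.Adj i (p i) → A z u)` and
`Inv U v := v ∈ U ∧ v0 ∈ U ∧ Relation.ReflTransGen (St U q) v0 v`. `mono`: `St` is monotone in `U`
(`near` is). `h0`: refl. `step`: `U`, `v ∈ U`, `#U ≤ n - 1`: by `displacement`
`q v ≥ q v0 - 16 (n - 1) > 0`, so `hgood v` holds. Let `s` be the least natural number with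
`near U q v (2 * 4 ^ s) < 4 ^ s` (`K` is one, since `near ≤ #U < n ≤ 4 ^ K`), so `s ≤ K`. At most one
of `T.Adj (p i) i`, `T.Adj i (p i)` holds (`hT.1`); choose the out- or the in-neighbours of `v`
accordingly: at least `4 ^ s` of them are at distance at most `2 * 4 ^ s`, fewer than `4 ^ s` are in
`U`; so there is `w ∉ U`. The step `St (insert w U) q v w` with this `s`: for `s = t + 1` minimality
gives `4 ^ t ≤ near U q v (2 * 4 ^ t) ≤ near (insert w U) q v (2 * 4 ^ t)`.
Finally translate `Q` along `∀ a b, T.Adj a b → ∃ i, ...`.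
-/

set_option autoImplicit false

namespace Pool.KLT

open Finset
open scoped Classical

private theorem near_mono {V : Type} {U U' : Finset V} (h : U ⊆ U') (q : V → ℕ) (v : V) (ρ : ℕ) :
    near U q v ρ ≤ near U' q v ρ :=
  Finset.card_le_card (Finset.filter_subset_filter _ h)

private theorem St_mono {V : Type} {U U' : Finset V} (h : U ⊆ U') (q : V → ℕ) (x y : V)
    (hs : St U q x y) : St U' q x y := by
  obtain ⟨hx, hy, s, h1, h2⟩ := hs
  exact ⟨h hx, h hy, s, h1, fun t ht => (h2 t ht).trans (near_mono h q x _)⟩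

private theorem near_le {V : Type} (U : Finset V) (q : V → ℕ) (v : V) (ρ : ℕ) :
    near U q v ρ ≤ #U := Finset.card_filter_le _ _

/-- Choice of a new neighbour. -/
private theorem pick {V : Type} [Fintype V] (B : V → V → Prop) (q : V → ℕ) (v : V) (U : Finset V)
    (ρ m : ℕ) (h1 : near U q v ρ < m) (h2 : m ≤ cnt B q v ρ) :
    ∃ w, w ∉ U ∧ B v w ∧ q v ≤ q w + ρ := by
  by_contra hcon
  push Not at hcon
  have : cnt B q v ρ ≤ near U q v ρ := by
    apply Finset.card_le_card
    intro w hw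
    rw [Finset.mem_filter] at hw ⊢
    refine ⟨?_, hw.2.2⟩
    by_contra hU
    exact absurd (hcon w hU hw.2.1) (not_lt.mpr hw.2.2.2)
  omega

theorem embedJ {V : Type} [Fintype V] (A : V → V → Prop) (n K : ℕ) (hK : n ≤ 4 ^ K)
    (T : Digraph (Fin n)) (hT : Pool.AAT.OTree n T) (q : V → ℕ)
    (hgood : ∀ v, 0 < q v → ∀ s ≤ K, 4 ^ s ≤ cnt A q v (2 * 4 ^ s) ∧
      4 ^ s ≤ cnt (fun a b => A b a) q v (2 * 4 ^ s))
    (v0 : V) (hv0 : 16 * (n - 1) < q v0) :
    ∃ f : Fin n → V, Function.Injective f ∧ ∀ a b : Fin n, T.Adj a b → A (f a) (f b) := by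
  have hne : Nonempty (Fin n) := hT.2.connected.nonempty
  obtain ⟨r⟩ := hne
  obtain ⟨p, d, hd, hcov⟩ := tree_parents n T hT r
  obtain ⟨φ, hφ, hQ⟩ := greedyI (V := V) (W := Fin n) r p d hd
    (fun i u z => (T.Adj (p i) i → A u z) ∧ (T.Adj i (p i) → A z u))
    (fun U v => v ∈ U ∧ v0 ∈ U ∧ Relation.ReflTransGen (St U q) v0 v)
    (fun U U' v h hI => ⟨h hI.1, h hI.2.1, Relation.ReflTransGen.mono (fun a b hab => St_mono h q a b hab) _ _ hI.2.2⟩)
    v0 ⟨by simp, by simp, Relation.ReflTransGen.refl⟩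
    (by
      intro U i v hi hv hI hU
      rw [Fintype.card_fin] at hU
      obtain ⟨hvU, hv0U, hchain⟩ := hI
      have hdisp := displacement U q v0 v hchain
      have hpos : 0 < q v := by omega
      have hex : ∃ s, near U q v (2 * 4 ^ s) < 4 ^ s :=
        ⟨K, lt_of_lt_of_le (lt_of_le_of_lt (near_le U q v _) hU) hK⟩
      have hs : near U q v (2 * 4 ^ (Nat.find hex)) < 4 ^ (Nat.find hex) := Nat.find_spec hex
      have hsK : Nat.find hex ≤ K :=
        Nat.find_le (lt_of_lt_of_le (lt_of_le_of_lt (near_le U q v _) hU) hK)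
      have hg := hgood v hpos (Nat.find hex) hsK
      have key : ∃ w, w ∉ U ∧ ((T.Adj (p i) i → A v w) ∧ (T.Adj i (p i) → A w v)) ∧
          q v ≤ q w + 2 * 4 ^ (Nat.find hex) := by
        by_cases hadj : T.Adj (p i) i
        · obtain ⟨w, hw1, hw2, hw3⟩ := pick A q v U _ _ hs hg.1
          exact ⟨w, hw1, ⟨fun _ => hw2, fun h => absurd h (hT.1 _ _ hadj)⟩, hw3⟩
        · obtain ⟨w, hw1, hw2, hw3⟩ := pick (fun a b => A b a) q v U _ _ hs hg.2
          exact ⟨w, hw1, ⟨fun h => absurd h hadj, fun _ => hw2⟩, hw3⟩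
      obtain ⟨w, hw1, hw2, hw3⟩ := key
      refine ⟨w, hw1, hw2, Finset.mem_insert_self w U, Finset.mem_insert_of_mem hv0U, ?_⟩
      have hsub : U ⊆ insert w U := Finset.subset_insert w U
      refine Relation.ReflTransGen.tail (Relation.ReflTransGen.mono (fun a b hab => St_mono hsub q a b hab) _ _ hchain) ?_
      refine ⟨hsub hvU, Finset.mem_insert_self w U, Nat.find hex, hw3, fun t ht => ?_⟩
      have hlt : t < Nat.find hex := by omega
      have hmin := Nat.find_min hex hlt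
      exact (not_lt.mp hmin).trans (near_mono hsub q v _))
  refine ⟨φ, hφ, fun a b hab => ?_⟩
  obtain ⟨i, hi, h⟩ := hcov a b hab
  rcases h with ⟨h1, h2⟩ | ⟨h1, h2⟩
  · subst h1
    have := (hQ i hi).2 (by rw [h2]; exact hab)
    rw [h2] at this
    exact this
  · subst h1
    have := (hQ i hi).1 (by rw [h2]; exact hab)
    rw [h2] at this
    exact this

end Pool.KLT
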