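import Mathlib

/-!
# KLT-N: the number of colours
PLAN. `⌈P / R⌉ R ≤ P + R - 1` for `R = 2 * 4 ^ s - 1`, `P = 16 n - 15`; the sum is at most
`2 ((K+1) (16 n - 15) + ∑ (2 * 4 ^ s - 2))`, `∑_{s ≤ K} 4 ^ s ≤ (4 * 4 ^ K) / 3` and `4 ^ K ≤ 4 (n - 1)`
for `n ≥ 2` (`Nat.pow_pred_clog_lt_self`), so the total is at most `32 n (K + 1) + 22 n`.
`Nat.clog 4 n ≤ (Nat.clog 2 n + 1) / 2`.
-/

set_option autoImplicit false

namespace Pool.KLT

open Finset

theorem clog_four (n : ℕ) : 2 * Nat.clog 4 n ≤ Nat.clog 2 n + 1 := by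
  have h1 : n ≤ 2 ^ Nat.clog 2 n := Nat.le_pow_clog (by norm_num) n
  have h2 : n ≤ 4 ^ ((Nat.clog 2 n + 1) / 2) := by
    calc n ≤ 2 ^ Nat.clog 2 n := h1
      _ ≤ 2 ^ (2 * ((Nat.clog 2 n + 1) / 2)) := Nat.pow_le_pow_right (by norm_num) (by omega)
      _ = 4 ^ ((Nat.clog 2 n + 1) / 2) := by rw [pow_mul]; norm_num
  have h3 := Nat.clog_le_of_le_pow h2
  omega

theorem numN (n : ℕ) (hn : 1 ≤ n) :
    2 * ∑ s ∈ range (Nat.clog 4 n + 1),
      ((16 * n - 15 + (2 * 4 ^ s - 1) - 1) / (2 * 4 ^ s - 1)) * (2 * 4 ^ s - 1) <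
      16 * n * (Nat.clog 2 n + 5) := by
  have hterm : ∀ s ∈ range (Nat.clog 4 n + 1),
      ((16 * n - 15 + (2 * 4 ^ s - 1) - 1) / (2 * 4 ^ s - 1)) * (2 * 4 ^ s - 1) ≤
        16 * n + 2 * 4 ^ s := by
    intro s _
    refine (Nat.div_mul_le_self _ _).trans ?_
    omega
  have h1 := Finset.sum_le_sum hterm
  have hgeo : ∀ m : ℕ, 3 * ∑ s ∈ range m, 4 ^ s + 1 = 4 ^ m := by
    intro m
    induction m with
    | zero => simp
    | succ m ih => rw [sum_range_succ, pow_succ]; omega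
  have h2 : ∑ s ∈ range (Nat.clog 4 n + 1), (16 * n + 2 * 4 ^ s) =
      (Nat.clog 4 n + 1) * (16 * n) + 2 * ∑ s ∈ range (Nat.clog 4 n + 1), 4 ^ s := by
    rw [sum_add_distrib, sum_const, card_range, smul_eq_mul, mul_sum]
  have h3 := hgeo (Nat.clog 4 n + 1)
  have h4 : 4 ^ (Nat.clog 4 n + 1) ≤ 16 * n := by
    rcases Nat.lt_or_ge 1 n with hn1 | hn1
    · have h5 := Nat.pow_pred_clog_lt_self (b := 4) (by norm_num) hn1
      have h6 : 0 < Nat.clog 4 n := Nat.clog_pos (by norm_num) hn1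
      obtain ⟨K, hK⟩ := Nat.exists_eq_succ_of_ne_zero h6.ne'
      rw [hK, Nat.pred_succ] at h5
      rw [hK, pow_succ, pow_succ]
      omega
    · have : n = 1 := by omega
      subst this
      norm_num
  have h5 := clog_four n
  have h6 : 16 * n * (2 * Nat.clog 4 n) ≤ 16 * n * (Nat.clog 2 n + 1) := Nat.mul_le_mul_left _ h5
  rw [h2] at h1
  generalize hS : ∑ s ∈ range (Nat.clog 4 n + 1), 4 ^ s = S at *
  generalize hT : ∑ s ∈ range (Nat.clog 4 n + 1),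
      ((16 * n - 15 + (2 * 4 ^ s - 1) - 1) / (2 * 4 ^ s - 1)) * (2 * 4 ^ s - 1) = T at *
  have h7 : 3 * S ≤ 16 * n := by omega
  nlinarith

end Pool.KLT
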