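import Pool.Agent.KLT.E
import Pool.Agent.KLT.C
import Pool.Agent.KLT.J
import Pool.Agent.KLT.N

/-!
# KLT-Fin: every oriented tree on n vertices in every digraph of chromatic number 16 n (log n + 5)

The equilibrium positions either have a vertex of position `16 n - 15`, from which the tree is embedded greedily, or
they give a colouring with fewer colours.
-/

set_option autoImplicit false

namespace Pool.KLT

open Finset
open scoped Classical

theorem main (n : ℕ) (T : Digraph (Fin n)) (hT : Pool.AAT.OTree n T) :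
    Pool.AAT.Unavoidable n T (16 * n * (Nat.clog 2 n + 5)) := by
  intro V _ D hchi
  rcases Nat.eq_zero_or_pos n with hn | hn
  · subst hn
    exact ⟨fun i => i.elim0, fun i => i.elim0, fun i => i.elim0⟩
  · have hR : ∀ s : ℕ, 1 ≤ 2 * 4 ^ s - 1 := fun s => by
      have : 1 ≤ 4 ^ s := Nat.one_le_pow _ _ (by norm_num)
      omega
    have hR1 : ∀ s : ℕ, 2 * 4 ^ s - 1 + 1 = 2 * 4 ^ s := fun s => by
      have : 1 ≤ 4 ^ s := Nat.one_le_pow _ _ (by norm_num)
      omega
    have hk : ∀ s : ℕ, 1 ≤ 4 ^ s := fun s => Nat.one_le_pow _ _ (by norm_num)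
    have hK : n ≤ 4 ^ Nat.clog 4 n := Nat.le_pow_clog (by norm_num) n
    obtain ⟨q, hq1, hq2, hq3⟩ := equilibrium D.Adj (fun s => 4 ^ s) (fun s => 2 * 4 ^ s - 1) hR
      (Nat.clog 4 n) (16 * n - 15 + 1) (Nat.succ_pos _)
    by_cases hex : ∃ v0, q v0 = 16 * n - 15
    · obtain ⟨v0, hv0⟩ := hex
      refine embedJ D.Adj n (Nat.clog 4 n) hK T hT q (fun v hv s hs => ?_) v0 (by omega)
      have := hq2 v hv s hs
      simp only [hR1] at this
      exact this
    · exfalso
      have hlt : ∀ v, q v < 16 * n - 15 := fun v => by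
        have h1 := hq1 v
        have h2 : q v ≠ 16 * n - 15 := fun h => hex ⟨v, h⟩
        omega
      have hcol := col_happy D.Adj (fun s => 4 ^ s) (fun s => 2 * 4 ^ s - 1) hk hR
        (Nat.clog 4 n) (16 * n - 15) q hlt (fun v => hq3 v (by have := hlt v; omega))
      have hnum := numN n hn
      have hle := hcol.chromaticNumber_le
      have h1 := hchi.trans hle
      rw [Nat.cast_le] at h1
      exact absurd (lt_of_lt_of_le hnum h1) (lt_irrefl _)

end Pool.KLT
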