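import Pool.Agent.KLT.Defs

/-!
# KLT-Ka: a simplex has an odd number of doors iff it is full
-/

set_option autoImplicit false

namespace Pool.KLT

open Finset
open scoped Classical

theorem door_parity (d : ℕ) (f : Fin (d + 1) → ℕ) (hf : ∀ j, f j ≤ d) :
    Odd (#(univ.filter (fun j : Fin (d + 1) => ∀ m < d, ∃ i, i ≠ j ∧ f i = m))) ↔
      ∀ m ≤ d, ∃ i, f i = m := by
  by_cases hfull : ∀ m ≤ d, ∃ i, f i = m
  · refine ⟨fun _ => hfull, fun _ => ?_⟩
    have hinj : Function.Injective f := by
      have hsub : range (d + 1) ⊆ univ.image f := by
        intro m hm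
        obtain ⟨i, hi⟩ := hfull m (Nat.lt_succ_iff.mp (mem_range.mp hm))
        exact mem_image.mpr ⟨i, mem_univ i, hi⟩
      have h1 := card_le_card hsub
      rw [card_range] at h1
      have h2 : (univ.image f).card ≤ (univ : Finset (Fin (d + 1))).card := card_image_le
      have h3 : (univ : Finset (Fin (d + 1))).card = d + 1 := by simp
      have h4 : (univ.image f).card = (univ : Finset (Fin (d + 1))).card := by omega
      have h5 := card_image_iff.mp h4
      intro a b hab
      exact h5 (by simp) (by simp) hab
    obtain ⟨j0, hj0⟩ := hfull d le_rfl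
    have hset : univ.filter (fun j : Fin (d + 1) => ∀ m < d, ∃ i, i ≠ j ∧ f i = m) = {j0} := by
      ext j
      rw [mem_filter, mem_singleton]
      constructor
      · rintro ⟨_, hj⟩
        rcases lt_or_eq_of_le (hf j) with h | h
        · obtain ⟨i, hi, hfi⟩ := hj (f j) h
          exact absurd (hinj hfi) hi
        · exact hinj (h.trans hj0.symm)
      · rintro rfl
        refine ⟨mem_univ _, fun m hm => ?_⟩
        obtain ⟨i, hi⟩ := hfull m hm.le
        refine ⟨i, ?_, hi⟩
        rintro rfl
        omega
    rw [hset, card_singleton]
    exact odd_one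
  · refine ⟨fun hodd => ?_, fun h => absurd h hfull⟩
    exfalso
    by_cases hlow : ∀ m < d, ∃ i, f i = m
    · have hne : ∀ i, f i < d := by
        intro i
        rcases lt_or_eq_of_le (hf i) with h | h
        · exact h
        · exfalso
          apply hfull
          intro m hm
          rcases lt_or_eq_of_le hm with h' | h'
          · exact hlow m h'
          · exact ⟨i, by rw [h, h']⟩
      have hpig : ∃ j1 ∈ (univ : Finset (Fin (d + 1))), ∃ j2 ∈ (univ : Finset (Fin (d + 1))),
          j1 ≠ j2 ∧ f j1 = f j2 := by
        apply exists_ne_map_eq_of_card_lt_of_maps_to (t := range d)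
        · simp
        · intro i _
          simpa using hne i
      obtain ⟨j1, _, j2, _, hne12, heq⟩ := hpig
      have hset : univ.filter (fun j : Fin (d + 1) => ∀ m < d, ∃ i, i ≠ j ∧ f i = m)
          = {j1, j2} := by
        ext j
        rw [mem_filter, mem_insert, mem_singleton]
        constructor
        · rintro ⟨_, hj⟩
          by_contra hcon
          push Not at hcon
          have hsub : range d ⊆ ((univ.erase j).erase j1).image f := by
            intro m hm
            obtain ⟨i, hi, hfi⟩ := hj m (mem_range.mp hm)
            by_cases hi1 : i = j1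
            · refine mem_image.mpr ⟨j2, ?_, ?_⟩
              · rw [mem_erase, mem_erase]
                exact ⟨hne12.symm, hcon.2.symm, mem_univ _⟩
              · rw [← heq, ← hi1, hfi]
            · refine mem_image.mpr ⟨i, ?_, hfi⟩
              rw [mem_erase, mem_erase]
              exact ⟨hi1, hi, mem_univ _⟩
          have h1 := (card_le_card hsub).trans card_image_le
          have hj1 : j1 ∈ (univ : Finset (Fin (d + 1))).erase j := by
            rw [mem_erase]
            exact ⟨hcon.1.symm, mem_univ _⟩
          rw [card_range, card_erase_of_mem hj1, card_erase_of_mem (mem_univ j), card_univ,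
            Fintype.card_fin] at h1
          have h2 : 0 < d := lt_of_le_of_lt (Nat.zero_le _) (hne j1)
          omega
        · rintro (rfl | rfl)
          · refine ⟨mem_univ _, fun m hm => ?_⟩
            obtain ⟨i, hi⟩ := hlow m hm
            by_cases hij : i = j
            · refine ⟨j2, hne12.symm, ?_⟩
              rw [← heq, ← hij, hi]
            · exact ⟨i, hij, hi⟩
          · refine ⟨mem_univ _, fun m hm => ?_⟩
            obtain ⟨i, hi⟩ := hlow m hm
            by_cases hij : i = j
            · refine ⟨j1, hne12, ?_⟩
              rw [heq, ← hij, hi]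
            · exact ⟨i, hij, hi⟩
      rw [hset, card_pair hne12] at hodd
      exact absurd hodd (by decide)
    · push Not at hlow
      obtain ⟨m, hm, hno⟩ := hlow
      have hset : univ.filter (fun j : Fin (d + 1) => ∀ m < d, ∃ i, i ≠ j ∧ f i = m) = ∅ := by
        rw [filter_eq_empty_iff]
        intro j _ hj
        obtain ⟨i, _, hi⟩ := hj m hm
        exact hno i hi
      rw [hset, card_empty] at hodd
      exact absurd hodd (by decide)

end Pool.KLT
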