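import Pool.Agent.KLT.Ka

/-!
# KLT-Kb: the parity of the number of doors is the parity of the number of full simplices
PLAN. `#doors = ∑_{(b,σ)} #{j | Door}` (`Finset.card_sigma`, or `card_eq_sum_card_fiberwise` with
`Prod.fst`), then `Finset.odd_sum_iff_odd_card_odd` and `door_parity` with
`f j = c (vtx b σ j)` (`hf` by `hc.le`, the coordinates of `vtx` are `≤ b i + 1 ≤ p`); translate
`∃ i ≤ d, i ≠ j ∧ ...` (naturals) into `∃ i : Fin (d+1), i ≠ j ∧ ...`.
-/

set_option autoImplicit false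

namespace Pool.KLT

open Finset
open scoped Classical

theorem vtx_le {d p : ℕ} (b : Fin d → Fin p) (σ : Equiv.Perm (Fin d)) (j : ℕ) (i : Fin d) :
    vtx (fun i => (b i : ℕ)) σ j i ≤ p := by
  have h := (b i).2
  unfold vtx
  split_ifs
  · exact h
  · exact h.le

private theorem door_iff {d p : ℕ} {c : (Fin d → ℕ) → ℕ} (hc : Lab d p c)
    (x : (Fin d → Fin p) × Equiv.Perm (Fin d)) :
    Odd (#(univ.filter (fun j : Fin (d + 1) => Door c (fun i => (x.1 i : ℕ)) x.2 j))) ↔
      Full c (fun i => (x.1 i : ℕ)) x.2 := by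
  have h := door_parity d (fun j : Fin (d + 1) => c (vtx (fun i => (x.1 i : ℕ)) x.2 j))
    (fun j => hc.le _ (vtx_le x.1 x.2 j))
  have e1 : univ.filter (fun j : Fin (d + 1) => Door c (fun i => (x.1 i : ℕ)) x.2 j) =
      univ.filter (fun j : Fin (d + 1) => ∀ m < d, ∃ i : Fin (d + 1), i ≠ j ∧
        c (vtx (fun i => (x.1 i : ℕ)) x.2 i) = m) := by
    refine Finset.filter_congr fun j _ => ?_
    unfold Door
    refine forall₂_congr fun m _ => ?_
    constructor
    · rintro ⟨i, hi, hij, he⟩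
      refine ⟨⟨i, Nat.lt_succ_of_le hi⟩, fun hh => hij ?_, he⟩
      rw [← hh]
    · rintro ⟨i, hij, he⟩
      exact ⟨i, Nat.le_of_lt_succ i.2, fun hh => hij (Fin.ext hh), he⟩
  have e2 : Full c (fun i => (x.1 i : ℕ)) x.2 ↔
      ∀ m ≤ d, ∃ i : Fin (d + 1), c (vtx (fun i => (x.1 i : ℕ)) x.2 i) = m := by
    unfold Full
    refine forall₂_congr fun m _ => ?_
    constructor
    · rintro ⟨i, hi, he⟩
      exact ⟨⟨i, Nat.lt_succ_of_le hi⟩, he⟩
    · rintro ⟨i, he⟩
      exact ⟨i, Nat.le_of_lt_succ i.2, he⟩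
  rw [e1, e2]
  exact h

theorem doors_parity (d p : ℕ) (c : (Fin d → ℕ) → ℕ) (hc : Lab d p c) :
    Odd (#(doors d p c)) ↔ Odd (#(fulls d p c)) := by
  have e1 : #(doors d p c) = ∑ x : (Fin d → Fin p) × Equiv.Perm (Fin d),
      #(univ.filter (fun j : Fin (d + 1) => Door c (fun i => (x.1 i : ℕ)) x.2 j)) := by
    unfold doors
    rw [Finset.card_filter, Fintype.sum_prod_type]
    refine Finset.sum_congr rfl fun x _ => ?_
    rw [Finset.card_filter]
  rw [e1, Finset.odd_sum_iff_odd_card_odd]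
  have e2 : (univ.filter fun x : (Fin d → Fin p) × Equiv.Perm (Fin d) =>
      Odd (#(univ.filter (fun j : Fin (d + 1) => Door c (fun i => (x.1 i : ℕ)) x.2 j)))) =
      fulls d p c := by
    unfold fulls
    exact Finset.filter_congr fun x _ => door_iff hc x
  rw [e2]

end Pool.KLT
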