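import Pool.Agent.KLT.Defs

/-!
# KLT-Kc: the vertices of neighbouring simplices
PLAN. Direct computation with `vtx`: `σ * finRotate (d+1)` sends `i` to `σ (i+1)` for `i < d` and
`d` to `σ 0`; its inverse sends `k` to `σ⁻¹ k - 1` (cyclically). `σ * swap a a'` for neighbouring
positions: for `i ≠ a'` (as numbers, `a' = a + 1`, the vertices with index `≠ a + 1`), `{σ⁻¹ k < i}`
is unchanged because the swap permutes `{0..i-1}`.
(1) `vtx b' σ' i = vtx b σ (i+1)` for `i ≤ d`, where `b' = b + e_(σ 0)`, `σ' = σ * finRotate (d+1)`.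
(2) `vtx b (σ * swap a a') i = vtx b σ i` for `i ≠ a + 1`.
-/

set_option autoImplicit false

namespace Pool.KLT

open Finset
open scoped Classical

theorem vtx_rot {d : ℕ} (b : Fin (d + 1) → ℕ) (σ : Equiv.Perm (Fin (d + 1))) (i : ℕ) (hi : i ≤ d) :
    vtx (Function.update b (σ 0) (b (σ 0) + 1)) (σ * finRotate (d + 1)) i = vtx b σ (i + 1) := by
  funext k
  have h1 : (σ * finRotate (d + 1)).symm k = (finRotate (d + 1)).symm (σ.symm k) := by
    rw [Equiv.symm_apply_eq, Equiv.Perm.mul_apply, Equiv.apply_symm_apply, Equiv.apply_symm_apply]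
  have h2 : finRotate (d + 1) ((finRotate (d + 1)).symm (σ.symm k)) = σ.symm k :=
    Equiv.apply_symm_apply _ _
  unfold vtx
  rw [h1]
  set r := (finRotate (d + 1)).symm (σ.symm k) with hr
  have h3 := coe_finRotate r
  rw [h2] at h3
  by_cases hk : k = σ 0
  · have h4 : σ.symm k = 0 := by rw [hk, Equiv.symm_apply_apply]
    rw [h4] at h3 ⊢
    by_cases hl : r = Fin.last d
    · have h5 : (r : ℕ) = d := by rw [hl, Fin.val_last]
      rw [h5, if_neg (by omega), hk, Function.update_self]
      simp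
    · rw [if_neg hl] at h3
      simp at h3
  · have h4 : σ.symm k ≠ 0 := by
      intro h
      apply hk
      rw [← h, Equiv.apply_symm_apply]
    have h5 : ((σ.symm k : Fin (d + 1)) : ℕ) ≠ 0 := by
      intro h
      exact h4 (Fin.ext (by simpa using h))
    by_cases hl : r = Fin.last d
    · rw [if_pos hl] at h3
      exact absurd h3 h5
    · rw [if_neg hl] at h3
      rw [Function.update_of_ne hk, h3]
      by_cases hlt : (r : ℕ) < i
      · rw [if_pos hlt, if_pos (by omega)]
      · rw [if_neg hlt, if_neg (by omega)]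

theorem vtx_swap {d : ℕ} (b : Fin (d + 1) → ℕ) (σ : Equiv.Perm (Fin (d + 1)))
    (a a' : Fin (d + 1)) (ha : (a' : ℕ) = a + 1) (i : ℕ) (hi : i ≠ a + 1) :
    vtx b (σ * Equiv.swap a a') i = vtx b σ i := by
  funext k
  have h1 : (σ * Equiv.swap a a').symm k = Equiv.swap a a' (σ.symm k) := by
    rw [Equiv.symm_apply_eq, Equiv.Perm.mul_apply, Equiv.swap_apply_self, Equiv.apply_symm_apply]
  unfold vtx
  rw [h1]
  by_cases h2 : σ.symm k = a
  · rw [h2, Equiv.swap_apply_left, ha]
    by_cases hlt : (a : ℕ) < i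
    · rw [if_pos hlt, if_pos (by omega)]
    · rw [if_neg hlt, if_neg (by omega)]
  · by_cases h3 : σ.symm k = a'
    · rw [h3, Equiv.swap_apply_right, ha]
      by_cases hlt : (a : ℕ) < i
      · rw [if_pos hlt, if_pos (by omega)]
      · rw [if_neg hlt, if_neg (by omega)]
    · rw [Equiv.swap_apply_of_ne_of_ne h2 h3]

end Pool.KLT
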