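import Pool.Agent.KLT.Kc

/-!
# KLT-Kd: the doors that are not on the boundary are paired

The doors with `j = 0` which are not on the boundary correspond to the doors with `j = last` (rotation);
the others are paired by transpositions.
-/

set_option autoImplicit false

namespace Pool.KLT

open Finset
open scoped Classical

private theorem kd_vtx_le {d p : ℕ} (b : Fin d → Fin p) (σ : Equiv.Perm (Fin d)) (j : ℕ)
    (i : Fin d) : vtx (fun i => (b i : ℕ)) σ j i ≤ p := by
  unfold vtx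
  have h := (b i).isLt
  split_ifs
  · show (b i : ℕ) + 1 ≤ p
    omega
  · show (b i : ℕ) ≤ p
    omega

theorem kd_low (d p : ℕ) (c : (Fin (d + 1) → ℕ) → ℕ) (hc : Lab (d + 1) p c)
    (b : Fin (d + 1) → Fin p) (σ : Equiv.Perm (Fin (d + 1)))
    (hd : Door c (fun i => (b i : ℕ)) σ (d + 1)) : 0 < ((b (σ (Fin.last d)) : Fin p) : ℕ) := by
  by_contra h0
  have h0' : ((b (σ (Fin.last d)) : Fin p) : ℕ) = 0 := by omega
  obtain ⟨i, hi, hi2, hi3⟩ := hd (σ (Fin.last d) : ℕ) (σ (Fin.last d)).isLt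
  refine hc.zero (vtx (fun i => (b i : ℕ)) σ i) (kd_vtx_le b σ i) (σ (Fin.last d)) ?_ hi3
  unfold vtx
  rw [Equiv.symm_apply_apply, if_neg]
  · exact h0'
  · rw [Fin.val_last]
    omega

private theorem kd_rot {d : ℕ} (c : (Fin (d + 1) → ℕ) → ℕ) (b : Fin (d + 1) → ℕ)
    (σ : Equiv.Perm (Fin (d + 1))) :
    Door c b σ 0 ↔
      Door c (Function.update b (σ 0) (b (σ 0) + 1)) (σ * finRotate (d + 1)) (d + 1) := by
  constructor
  · intro h m hm
    obtain ⟨i, hi, hi0, hi2⟩ := h m hm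
    obtain ⟨k, rfl⟩ : ∃ k, i = k + 1 := ⟨i - 1, by omega⟩
    refine ⟨k, by omega, by omega, ?_⟩
    rw [vtx_rot b σ k (by omega)]
    exact hi2
  · intro h m hm
    obtain ⟨i, hi, hi0, hi2⟩ := h m hm
    refine ⟨i + 1, by omega, by omega, ?_⟩
    rw [← vtx_rot b σ i (by omega)]
    exact hi2

/-- increase by one -/
private def kd_inc {p : ℕ} (k : Fin p) : Fin p := if h : (k : ℕ) + 1 < p then ⟨k + 1, h⟩ else k

/-- decrease by one -/
private def kd_dec {p : ℕ} (k : Fin p) : Fin p := ⟨(k : ℕ) - 1, by omega⟩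

private theorem kd_inc_val {p : ℕ} (k : Fin p) (h : (k : ℕ) + 1 ≠ p) :
    (kd_inc k : ℕ) = k + 1 := by
  have h1 : (k : ℕ) + 1 < p := by omega
  unfold kd_inc
  rw [dif_pos h1]

private theorem kd_dec_val {p : ℕ} (k : Fin p) : (kd_dec k : ℕ) = k - 1 := rfl

private theorem kd_cast {d p : ℕ} (b : Fin (d + 1) → Fin p) (a : Fin (d + 1)) (v : Fin p) :
    (fun i => ((Function.update b a v i : Fin p) : ℕ)) =
      Function.update (fun i => (b i : ℕ)) a (v : ℕ) := by
  funext i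
  by_cases h : i = a
  · subst h
    rw [Function.update_self, Function.update_self]
  · rw [Function.update_of_ne h, Function.update_of_ne h]

/-- index before -/
private def kd_a {d : ℕ} (j : Fin (d + 2)) : Fin (d + 1) := ⟨(j : ℕ) - 1, by omega⟩

/-- index after -/
private def kd_a' {d : ℕ} (j : Fin (d + 2)) : Fin (d + 1) := ⟨min (j : ℕ) d, by omega⟩

private theorem kd_swap {d : ℕ} (c : (Fin (d + 1) → ℕ) → ℕ) (b : Fin (d + 1) → ℕ)
    (σ : Equiv.Perm (Fin (d + 1))) (j : Fin (d + 2)) (h0 : j ≠ 0) (h1 : j ≠ Fin.last (d + 1))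
    (h : Door c b σ j) : Door c b (σ * Equiv.swap (kd_a j) (kd_a' j)) j := by
  have hj0 : (j : ℕ) ≠ 0 := fun h => h0 (Fin.ext h)
  have hj1 : (j : ℕ) ≠ d + 1 := fun h => h1 (Fin.ext h)
  have hj2 := j.isLt
  have ha : ((kd_a' j : Fin (d + 1)) : ℕ) = (kd_a j : Fin (d + 1)) + 1 := by
    show min (j : ℕ) d = (j : ℕ) - 1 + 1
    omega
  have ha1 : ((kd_a j : Fin (d + 1)) : ℕ) + 1 = j := by
    show (j : ℕ) - 1 + 1 = j
    omega
  intro m hm
  obtain ⟨i, hi, hi1, hi2⟩ := h m hm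
  refine ⟨i, hi, hi1, ?_⟩
  rw [vtx_swap b σ (kd_a j) (kd_a' j) ha i (by omega)]
  exact hi2

private theorem kd_mid (d p : ℕ) (c : (Fin (d + 1) → ℕ) → ℕ) :
    Even (#((doors (d + 1) p c).filter (fun x => x.2 ≠ 0 ∧ x.2 ≠ Fin.last (d + 1)))) := by
  rw [← ZMod.natCast_eq_zero_iff_even]
  have h1 : ∑ x ∈ (doors (d + 1) p c).filter (fun x => x.2 ≠ 0 ∧ x.2 ≠ Fin.last (d + 1)),
      (1 : ZMod 2) = 0 := by
    refine Finset.sum_involution
      (fun x _ => ((x.1.1, x.1.2 * Equiv.swap (kd_a x.2) (kd_a' x.2)), x.2)) ?_ ?_ ?_ ?_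
    · intro x _
      exact CharTwo.add_self_eq_zero 1
    · rintro ⟨⟨b, σ⟩, j⟩ hx _ he
      rw [mem_filter] at hx
      have hj0 : (j : ℕ) ≠ 0 := fun h => hx.2.1 (Fin.ext h)
      have hj1 : (j : ℕ) ≠ d + 1 := fun h => hx.2.2 (Fin.ext h)
      have hj2 := j.isLt
      have he2 : σ * Equiv.swap (kd_a j) (kd_a' j) = σ := congrArg (fun y => y.1.2) he
      rw [mul_eq_left] at he2
      have he3 : kd_a j = kd_a' j := Equiv.swap_eq_one_iff.1 he2
      have he4 : (j : ℕ) - 1 = min (j : ℕ) d := congrArg Fin.val he3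
      omega
    · rintro ⟨⟨b, σ⟩, j⟩ hx
      rw [mem_filter] at hx ⊢
      refine ⟨?_, hx.2⟩
      have h2 := (mem_filter.1 hx.1).2
      exact mem_filter.2 ⟨mem_univ _, kd_swap c _ σ j hx.2.1 hx.2.2 h2⟩
    · rintro ⟨⟨b, σ⟩, j⟩ _
      show ((b, σ * Equiv.swap (kd_a j) (kd_a' j) * Equiv.swap (kd_a j) (kd_a' j)), j) =
        ((b, σ), j)
      rw [mul_assoc, Equiv.swap_mul_self, mul_one]
  rw [Finset.sum_const, nsmul_one] at h1
  exact h1

private theorem kd_last0 (d : ℕ) : (finRotate (d + 1))⁻¹ 0 = Fin.last d := by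
  rw [Equiv.Perm.inv_eq_iff_eq, finRotate_last]

private theorem kd_ends (d p : ℕ) (c : (Fin (d + 1) → ℕ) → ℕ) (hc : Lab (d + 1) p c) :
    #((doors (d + 1) p c).filter (fun x => x.2 = 0 ∧ ((x.1.1 (x.1.2 0) : Fin p) : ℕ) + 1 ≠ p)) =
      #((doors (d + 1) p c).filter (fun x => x.2 = Fin.last (d + 1))) := by
  refine Finset.card_nbij'
    (fun x => ((Function.update x.1.1 (x.1.2 0) (kd_inc (x.1.1 (x.1.2 0))),
      x.1.2 * finRotate (d + 1)), Fin.last (d + 1)))
    (fun x => ((Function.update x.1.1 (x.1.2 (Fin.last d)) (kd_dec (x.1.1 (x.1.2 (Fin.last d)))),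
      x.1.2 * (finRotate (d + 1))⁻¹), 0)) ?_ ?_ ?_ ?_
  · rintro ⟨⟨b, σ⟩, j⟩ hx
    rw [mem_coe, mem_filter] at hx
    obtain ⟨hx1, hx2, hx3⟩ := hx
    simp only at hx2 hx3
    subst hx2
    have h1 : Door c (fun i => (b i : ℕ)) σ 0 := (mem_filter.1 hx1).2
    rw [mem_coe, mem_filter]
    refine ⟨mem_filter.2 ⟨mem_univ _, ?_⟩, rfl⟩
    show Door c (fun i => ((Function.update b (σ 0) (kd_inc (b (σ 0))) i : Fin p) : ℕ))
      (σ * finRotate (d + 1)) (d + 1)
    rw [kd_cast, kd_inc_val _ hx3]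
    exact (kd_rot c (fun i => (b i : ℕ)) σ).1 h1
  · rintro ⟨⟨b, σ⟩, j⟩ hx
    rw [mem_coe, mem_filter] at hx
    obtain ⟨hx1, hx2⟩ := hx
    simp only at hx2
    subst hx2
    have h1 : Door c (fun i => (b i : ℕ)) σ (d + 1) := (mem_filter.1 hx1).2
    have hlow := kd_low d p c hc b σ h1
    have e0 : (σ * (finRotate (d + 1))⁻¹) 0 = σ (Fin.last d) := by
      rw [Equiv.Perm.mul_apply, kd_last0]
    rw [mem_coe, mem_filter]
    refine ⟨mem_filter.2 ⟨mem_univ _, ?_⟩, rfl, ?_⟩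
    · show Door c (fun i => ((Function.update b (σ (Fin.last d))
        (kd_dec (b (σ (Fin.last d)))) i : Fin p) : ℕ)) (σ * (finRotate (d + 1))⁻¹) 0
      have e2 : ((b (σ (Fin.last d)) : Fin p) : ℕ) - 1 + 1 = (b (σ (Fin.last d)) : Fin p) := by
        omega
      rw [kd_rot, e0, inv_mul_cancel_right, kd_cast, Function.update_self, kd_dec_val,
        e2, Function.update_idem, Function.update_eq_self]
      exact h1
    · show ((Function.update b (σ (Fin.last d)) (kd_dec (b (σ (Fin.last d))))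
        ((σ * (finRotate (d + 1))⁻¹) 0) : Fin p) : ℕ) + 1 ≠ p
      rw [e0, Function.update_self, kd_dec_val]
      have := (b (σ (Fin.last d))).isLt
      omega
  · rintro ⟨⟨b, σ⟩, j⟩ hx
    rw [mem_coe, mem_filter] at hx
    obtain ⟨hx1, hx2, hx3⟩ := hx
    simp only at hx2 hx3
    subst hx2
    have e0 : (σ * finRotate (d + 1)) (Fin.last d) = σ 0 := by
      rw [Equiv.Perm.mul_apply, finRotate_last]
    have e1 : kd_dec (kd_inc (b (σ 0))) = b (σ 0) := by
      apply Fin.ext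
      rw [kd_dec_val, kd_inc_val _ hx3]
      rfl
    show ((Function.update (Function.update b (σ 0) (kd_inc (b (σ 0))))
      ((σ * finRotate (d + 1)) (Fin.last d))
      (kd_dec (Function.update b (σ 0) (kd_inc (b (σ 0)))
        ((σ * finRotate (d + 1)) (Fin.last d)))),
      σ * finRotate (d + 1) * (finRotate (d + 1))⁻¹), (0 : Fin (d + 2))) = ((b, σ), 0)
    rw [e0, Function.update_self, e1, Function.update_idem, Function.update_eq_self,
      mul_inv_cancel_right]
  · rintro ⟨⟨b, σ⟩, j⟩ hx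
    rw [mem_coe, mem_filter] at hx
    obtain ⟨hx1, hx2⟩ := hx
    simp only at hx2
    subst hx2
    have h1 : Door c (fun i => (b i : ℕ)) σ (d + 1) := (mem_filter.1 hx1).2
    have hlow := kd_low d p c hc b σ h1
    have e0 : (σ * (finRotate (d + 1))⁻¹) 0 = σ (Fin.last d) := by
      rw [Equiv.Perm.mul_apply, kd_last0]
    have hlt := (b (σ (Fin.last d))).isLt
    have e1 : kd_inc (kd_dec (b (σ (Fin.last d)))) = b (σ (Fin.last d)) := by
      apply Fin.ext
      rw [kd_inc_val _ (by rw [kd_dec_val]; omega), kd_dec_val]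
      omega
    show ((Function.update (Function.update b (σ (Fin.last d)) (kd_dec (b (σ (Fin.last d)))))
      ((σ * (finRotate (d + 1))⁻¹) 0)
      (kd_inc (Function.update b (σ (Fin.last d)) (kd_dec (b (σ (Fin.last d))))
        ((σ * (finRotate (d + 1))⁻¹) 0))),
      σ * (finRotate (d + 1))⁻¹ * finRotate (d + 1)), Fin.last (d + 1)) =
        ((b, σ), Fin.last (d + 1))
    rw [e0, Function.update_self, e1, Function.update_idem, Function.update_eq_self,
      inv_mul_cancel_right]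

theorem inner_even (d p : ℕ) (c : (Fin (d + 1) → ℕ) → ℕ) (hc : Lab (d + 1) p c) :
    Even (#(doors (d + 1) p c \ bdoors d p c)) := by
  have h1 : doors (d + 1) p c \ bdoors d p c =
      ((doors (d + 1) p c).filter
        (fun x => x.2 = 0 ∧ ((x.1.1 (x.1.2 0) : Fin p) : ℕ) + 1 ≠ p) ∪
        (doors (d + 1) p c).filter (fun x => x.2 = Fin.last (d + 1))) ∪
        (doors (d + 1) p c).filter (fun x => x.2 ≠ 0 ∧ x.2 ≠ Fin.last (d + 1)) := by
    ext x
    simp only [bdoors, mem_sdiff, mem_union, mem_filter]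
    have hne : x.2 = Fin.last (d + 1) → x.2 ≠ 0 := by
      intro h h'
      rw [h] at h'
      exact absurd (congrArg Fin.val h') (by simp)
    tauto
  have h2 : Disjoint ((doors (d + 1) p c).filter
        (fun x => x.2 = 0 ∧ ((x.1.1 (x.1.2 0) : Fin p) : ℕ) + 1 ≠ p))
        ((doors (d + 1) p c).filter (fun x => x.2 = Fin.last (d + 1))) := by
    rw [Finset.disjoint_left]
    intro x hx hx'
    rw [mem_filter] at hx hx'
    have h3 := hx.2.1
    rw [hx'.2] at h3
    exact absurd (congrArg Fin.val h3) (by simp)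
  have h3 : Disjoint ((doors (d + 1) p c).filter
        (fun x => x.2 = 0 ∧ ((x.1.1 (x.1.2 0) : Fin p) : ℕ) + 1 ≠ p) ∪
        (doors (d + 1) p c).filter (fun x => x.2 = Fin.last (d + 1)))
        ((doors (d + 1) p c).filter (fun x => x.2 ≠ 0 ∧ x.2 ≠ Fin.last (d + 1))) := by
    rw [Finset.disjoint_left]
    intro x hx hx'
    rw [mem_union, mem_filter, mem_filter] at hx
    rw [mem_filter] at hx'
    rcases hx with hx | hx
    · exact hx'.2.1 hx.2.1
    · exact hx'.2.2 hx.2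
  rw [h1, card_union_of_disjoint h3, card_union_of_disjoint h2, kd_ends d p c hc]
  exact (Even.add_self _).add (kd_mid d p c)

end Pool.KLT
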