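import Pool.Agent.KLT.Kb

/-!
# KLT-Ke: boundary doors are the full simplices of the upper face
PLAN. A boundary door `(b, σ, 0)`, `b (σ 0) = p - 1`: all vertices `i ≥ 1` have coordinate `σ 0`
equal to `p`, so their labels are `≤ σ 0` (`hc.top`); the label `d` occurs, so `σ 0 = last`.
Bijection with the full simplices `(b', σ')` of dimension `d` for `c' x = c (Fin.snoc x p)`:
`b = Fin.snoc b' (p-1)`, `σ 0 = last`, `σ (i+1) = castSucc (σ' i)`; then
`vtx b σ (i+1) = Fin.snoc (vtx b' σ' i) p` for `i ≤ d`, and `Door c b σ 0 ↔ Full c' b' σ'`.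
(`Finset.card_bij` or `card_nbij'`; the permutation with `σ 0 = last` can be built as
`σ' = ` the restriction; or use `Equiv.Perm.decomposeFin`/`Equiv.optionSubtype`, or count through
the injective map `σ' ↦ σ` and show surjectivity on permutations with `σ 0 = last`.)
-/

set_option autoImplicit false

namespace Pool.KLT

open Finset
open scoped Classical

private theorem ke_le {d p : ℕ} (x : Fin d → ℕ) (hx : ∀ i, x i ≤ p) (i : Fin (d + 1)) :
    (Fin.snoc x p : Fin (d + 1) → ℕ) i ≤ p := by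
  refine Fin.lastCases ?_ (fun i => ?_) i
  · rw [Fin.snoc_last]
  · rw [Fin.snoc_castSucc]
    exact hx i

theorem lab_face (d p : ℕ) (c : (Fin (d + 1) → ℕ) → ℕ) (hc : Lab (d + 1) p c) :
    Lab d p (fun x => c (Fin.snoc x p)) := by
  refine ⟨fun x hx => ?_, fun x hx i hi => ?_, fun x hx i hi => ?_⟩
  · have h := hc.top (Fin.snoc x p) (ke_le x hx) (Fin.last d) (by rw [Fin.snoc_last])
    rwa [Fin.val_last] at h
  · have h := hc.zero (Fin.snoc x p) (ke_le x hx) (Fin.castSucc i) (by rw [Fin.snoc_castSucc]; exact hi)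
    rwa [Fin.val_castSucc] at h
  · have h := hc.top (Fin.snoc x p) (ke_le x hx) (Fin.castSucc i) (by rw [Fin.snoc_castSucc]; exact hi)
    rwa [Fin.val_castSucc] at h

/-- the permutation with `0 ↦ last`, `i + 1 ↦ castSucc (σ i)` -/
private def ke_up {d : ℕ} (σ : Equiv.Perm (Fin d)) : Equiv.Perm (Fin (d + 1)) :=
  (finSuccEquiv d).trans ((Equiv.optionCongr σ).trans (finSuccEquivLast (n := d)).symm)

private theorem ke_zero {d : ℕ} (σ : Equiv.Perm (Fin d)) : ke_up σ 0 = Fin.last d := by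
  simp [ke_up]

private theorem ke_succ {d : ℕ} (σ : Equiv.Perm (Fin d)) (i : Fin d) :
    ke_up σ i.succ = (σ i).castSucc := by
  simp [ke_up]

private theorem ke_last {d : ℕ} (σ : Equiv.Perm (Fin d)) : (ke_up σ).symm (Fin.last d) = 0 := by
  rw [Equiv.symm_apply_eq, ke_zero]

private theorem ke_cast {d : ℕ} (σ : Equiv.Perm (Fin d)) (i : Fin d) :
    (ke_up σ).symm i.castSucc = (σ.symm i).succ := by
  rw [Equiv.symm_apply_eq, ke_succ, Equiv.apply_symm_apply]

private theorem ke_inj {d : ℕ} {σ τ : Equiv.Perm (Fin d)} (h : ke_up σ = ke_up τ) : σ = τ := by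
  ext i
  have h1 : ke_up σ i.succ = ke_up τ i.succ := by rw [h]
  rw [ke_succ, ke_succ] at h1
  rw [Fin.castSucc_injective d h1]

private theorem ke_surj {d : ℕ} (σ : Equiv.Perm (Fin (d + 1))) (h : σ 0 = Fin.last d) :
    ∃ τ : Equiv.Perm (Fin d), ke_up τ = σ := by
  obtain ⟨e, he⟩ : ∃ e : Option (Fin d) ≃ Option (Fin d),
      e = (finSuccEquiv d).symm.trans (σ.trans (finSuccEquivLast (n := d))) := ⟨_, rfl⟩
  have h0 : e none = none := by
    rw [he]
    simp [h]
  have hs : ∀ i, e (some i) = finSuccEquivLast (σ i.succ) := by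
    intro i
    rw [he]
    simp
  have hr : ∀ i, some (Equiv.removeNone e i) = e (some i) := by
    intro i
    apply Equiv.removeNone_some
    have h1 : e (some i) ≠ none := by
      intro h2
      have h3 := e.injective (h2.trans h0.symm)
      cases h3
    exact Option.ne_none_iff_exists'.1 h1
  refine ⟨Equiv.removeNone e, ?_⟩
  ext i
  congr 1
  refine Fin.cases ?_ (fun i => ?_) i
  · rw [ke_zero, h]
  · rw [ke_succ]
    have h1 := (hr i).trans (hs i)
    have h2 := congrArg (finSuccEquivLast (n := d)).symm h1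
    rw [Equiv.symm_apply_apply, finSuccEquivLast_symm_some] at h2
    exact h2

private theorem ke_vtx {d p : ℕ} (b : Fin d → Fin p) (z : Fin p) (hz : (z : ℕ) + 1 = p)
    (σ : Equiv.Perm (Fin d)) (j : ℕ) :
    vtx (fun i => (((Fin.snoc b z : Fin (d + 1) → Fin p) i : Fin p) : ℕ)) (ke_up σ) (j + 1) =
      Fin.snoc (vtx (fun i => (b i : ℕ)) σ j) p := by
  funext i
  refine Fin.lastCases ?_ (fun i => ?_) i
  · rw [Fin.snoc_last]
    unfold vtx
    rw [ke_last, if_pos (by simp)]
    show (((Fin.snoc b z : Fin (d + 1) → Fin p) (Fin.last d) : Fin p) : ℕ) + 1 = p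
    rw [Fin.snoc_last, hz]
  · rw [Fin.snoc_castSucc]
    unfold vtx
    have e : (((Fin.snoc b z : Fin (d + 1) → Fin p) i.castSucc : Fin p) : ℕ) = (b i : ℕ) := by
      rw [Fin.snoc_castSucc]
    rw [ke_cast, Fin.val_succ]
    show (if ((σ.symm i : Fin d) : ℕ) + 1 < j + 1 then
      (((Fin.snoc b z : Fin (d + 1) → Fin p) i.castSucc : Fin p) : ℕ) + 1 else
      (((Fin.snoc b z : Fin (d + 1) → Fin p) i.castSucc : Fin p) : ℕ)) =
      if ((σ.symm i : Fin d) : ℕ) < j then (b i : ℕ) + 1 else (b i : ℕ)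
    rw [e]
    by_cases h : ((σ.symm i : Fin d) : ℕ) < j
    · rw [if_pos h, if_pos (by omega)]
    · rw [if_neg h, if_neg (by omega)]

private theorem ke_door {d p : ℕ} (c : (Fin (d + 1) → ℕ) → ℕ) (b : Fin d → Fin p) (z : Fin p)
    (hz : (z : ℕ) + 1 = p) (σ : Equiv.Perm (Fin d)) :
    Door c (fun i => (((Fin.snoc b z : Fin (d + 1) → Fin p) i : Fin p) : ℕ)) (ke_up σ) 0 ↔
      Full (fun x => c (Fin.snoc x p)) (fun i => (b i : ℕ)) σ := by
  constructor
  · intro h m hm
    obtain ⟨i, h1, h2, h3⟩ := h m (by omega)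
    obtain ⟨j, rfl⟩ : ∃ j, i = j + 1 := ⟨i - 1, by omega⟩
    rw [ke_vtx b z hz] at h3
    exact ⟨j, by omega, h3⟩
  · intro h m hm
    obtain ⟨j, h1, h2⟩ := h m (by omega)
    refine ⟨j + 1, by omega, by omega, ?_⟩
    rw [ke_vtx b z hz]
    exact h2

theorem bdoors_card (d p : ℕ) (hp : 0 < p) (c : (Fin (d + 1) → ℕ) → ℕ) (hc : Lab (d + 1) p c) :
    #(bdoors d p c) = #(fulls d p (fun x => c (Fin.snoc x p))) := by
  obtain ⟨z, hz⟩ : ∃ z : Fin p, (z : ℕ) + 1 = p := ⟨⟨p - 1, by omega⟩, by simp only; omega⟩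
  symm
  refine Finset.card_bij (fun x _ => (((Fin.snoc x.1 z : Fin (d + 1) → Fin p), ke_up x.2), 0))
    ?_ ?_ ?_
  · rintro ⟨b, σ⟩ hx
    have h1 := (Finset.mem_filter.1 hx).2
    unfold bdoors doors
    rw [Finset.mem_filter, Finset.mem_filter]
    refine ⟨⟨Finset.mem_univ _, ?_⟩, rfl, ?_⟩
    · show Door c (fun i => (((Fin.snoc b z : Fin (d + 1) → Fin p) i : Fin p) : ℕ)) (ke_up σ)
        ((0 : Fin (d + 1 + 1)) : ℕ)
      rw [Fin.val_zero]
      exact (ke_door c b z hz σ).2 h1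
    · show (((Fin.snoc b z : Fin (d + 1) → Fin p) (ke_up σ 0) : Fin p) : ℕ) + 1 = p
      rw [ke_zero, Fin.snoc_last]
      exact hz
  · rintro ⟨b, σ⟩ _ ⟨b', σ'⟩ _ h
    have h1 := (Prod.ext_iff.1 h).1
    obtain ⟨h2, h3⟩ := Prod.ext_iff.1 h1
    have h4 : b = b' := by
      funext i
      have h5 := congrFun h2 i.castSucc
      simp only [Fin.snoc_castSucc] at h5
      exact h5
    have h5 : σ = σ' := ke_inj h3
    rw [h4, h5]
  · rintro ⟨⟨b, σ⟩, j⟩ hx
    unfold bdoors doors at hx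
    rw [Finset.mem_filter, Finset.mem_filter] at hx
    obtain ⟨⟨_, hD⟩, hj, hb⟩ := hx
    have hj' : j = 0 := hj
    subst hj'
    have hD' : Door c (fun i => (b i : ℕ)) σ 0 := hD
    have hb' : ((b (σ 0) : Fin p) : ℕ) + 1 = p := hb
    have h0 : σ 0 = Fin.last d := by
      obtain ⟨i, h1, h2, h3⟩ := hD' d (by omega)
      have h4 := hc.top (vtx (fun i => (b i : ℕ)) σ i) (vtx_le b σ i) (σ 0) (by
        unfold vtx
        rw [Equiv.symm_apply_apply, Fin.val_zero, if_pos (by omega)]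
        exact hb')
      rw [h3] at h4
      apply Fin.ext
      rw [Fin.val_last]
      have := (σ 0).2
      omega
    obtain ⟨τ, hτ⟩ := ke_surj σ h0
    have hbz : b (Fin.last d) = z := by
      apply Fin.ext
      rw [← h0]
      omega
    have hbs : (Fin.snoc (fun i : Fin d => b i.castSucc) z : Fin (d + 1) → Fin p) = b := by
      funext i
      refine Fin.lastCases ?_ (fun i => ?_) i
      · rw [Fin.snoc_last, hbz]
      · rw [Fin.snoc_castSucc]
    refine ⟨((fun i : Fin d => b i.castSucc), τ), ?_, ?_⟩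
    · unfold fulls
      rw [Finset.mem_filter]
      refine ⟨Finset.mem_univ _, ?_⟩
      show Full (fun x => c (Fin.snoc x p)) (fun i : Fin d => ((b i.castSucc : Fin p) : ℕ)) τ
      rw [← ke_door c (fun i : Fin d => b i.castSucc) z hz τ, hbs, hτ]
      exact hD'
    · show (((Fin.snoc (fun i : Fin d => b i.castSucc) z : Fin (d + 1) → Fin p), ke_up τ),
        (0 : Fin (d + 2))) = ((b, σ), 0)
      rw [hbs, hτ]

end Pool.KLT
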