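import Pool.Agent.KLT.Kd
import Pool.Agent.KLT.Ke

/-!
# KLT-Kf: Kuhn's lemma

The number of full simplices is odd (induction on the dimension); Kuhn's cubical lemma by reduced
labels.
-/

set_option autoImplicit false

namespace Pool.KLT

open Finset
open scoped Classical

private theorem fulls_zero (p : ℕ) (c : (Fin 0 → ℕ) → ℕ) (hc : Lab 0 p c) :
    #(fulls 0 p c) = 1 := by
  rw [Finset.card_eq_one]
  refine ⟨(fun i => i.elim0, 1), ?_⟩
  ext x
  rw [Finset.mem_singleton, fulls, Finset.mem_filter]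
  constructor
  · intro _
    refine Prod.ext (funext fun i => i.elim0) (Equiv.ext fun i => i.elim0)
  · intro _
    refine ⟨Finset.mem_univ _, ?_⟩
    intro m hm
    refine ⟨0, le_refl 0, ?_⟩
    have h1 := hc.le (vtx (fun i => (x.1 i : ℕ)) x.2 0) (fun i => i.elim0)
    omega

theorem fulls_odd (p : ℕ) (hp : 0 < p) (d : ℕ) (c : (Fin d → ℕ) → ℕ) (hc : Lab d p c) :
    Odd (#(fulls d p c)) := by
  induction d with
  | zero =>
    rw [fulls_zero p c hc]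
    exact odd_one
  | succ d ih =>
    rw [← doors_parity (d + 1) p c hc]
    have h1 : #(doors (d + 1) p c \ bdoors d p c) + #(bdoors d p c) = #(doors (d + 1) p c) :=
      Finset.card_sdiff_add_card_eq_card (Finset.filter_subset _ _)
    rw [← h1]
    refine (inner_even d p c hc).add_odd ?_
    rw [bdoors_card d p hp c hc]
    exact ih _ (lab_face d p c hc)

/-- the first coordinate with a label, or `d` -/
private noncomputable def red {d : ℕ} (lab : (Fin d → ℕ) → Fin d → Prop) (x : Fin d → ℕ) : ℕ :=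
  if h : ∃ m : ℕ, ∃ hm : m < d, lab x ⟨m, hm⟩ then Nat.find h else d

private theorem red_spec {d : ℕ} {lab : (Fin d → ℕ) → Fin d → Prop} {x : Fin d → ℕ} {i : Fin d}
    (h : red lab x = i) : lab x i := by
  unfold red at h
  split at h
  · next h1 =>
    obtain ⟨hm, h2⟩ := Nat.find_spec h1
    have h3 : (⟨Nat.find h1, hm⟩ : Fin d) = i := Fin.ext h
    rwa [h3] at h2
  · exact absurd h (ne_of_gt i.2)

private theorem red_le {d : ℕ} {lab : (Fin d → ℕ) → Fin d → Prop} {x : Fin d → ℕ} {i : Fin d}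
    (h : lab x i) : red lab x ≤ i := by
  have h1 : ∃ m : ℕ, ∃ hm : m < d, lab x ⟨m, hm⟩ := ⟨i, i.2, h⟩
  unfold red
  rw [dif_pos h1]
  exact Nat.find_min' h1 ⟨i.2, h⟩

private theorem red_le_d {d : ℕ} (lab : (Fin d → ℕ) → Fin d → Prop) (x : Fin d → ℕ) :
    red lab x ≤ d := by
  unfold red
  split
  · next h1 =>
    obtain ⟨hm, -⟩ := Nat.find_spec h1
    exact hm.le
  · exact le_refl d

private theorem vtx_bd {d : ℕ} (b : Fin d → ℕ) (σ : Equiv.Perm (Fin d)) (j : ℕ) (i : Fin d) :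
    b i ≤ vtx b σ j i ∧ vtx b σ j i ≤ b i + 1 := by
  unfold vtx
  split
  · exact ⟨Nat.le_succ _, le_refl _⟩
  · exact ⟨le_refl _, Nat.le_succ _⟩

theorem kuhn_fin (d p : ℕ) (hp : 0 < p) (lab : (Fin d → ℕ) → Fin d → Prop)
    (h0 : ∀ x, (∀ i, x i ≤ p) → ∀ i, x i = 0 → ¬ lab x i)
    (h1 : ∀ x, (∀ i, x i ≤ p) → ∀ i, x i = p → lab x i) :
    ∃ q : Fin d → ℕ, (∀ i, q i < p) ∧ ∀ i,
      (∃ r : Fin d → ℕ, (∀ j, q j ≤ r j ∧ r j ≤ q j + 1) ∧ ¬ lab r i) ∧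
      (∃ s : Fin d → ℕ, (∀ j, q j ≤ s j ∧ s j ≤ q j + 1) ∧ lab s i) := by
  have hc : Lab d p (red lab) := ⟨fun x _ => red_le_d lab x,
    fun x hx i hi h => h0 x hx i hi (red_spec h), fun x hx i hi => red_le (h1 x hx i hi)⟩
  obtain ⟨x, hx⟩ := Finset.card_pos.1 (fulls_odd p hp d (red lab) hc).pos
  have h2 : Full (red lab) (fun i => (x.1 i : ℕ)) x.2 := (Finset.mem_filter.1 hx).2
  refine ⟨fun i => (x.1 i : ℕ), fun i => (x.1 i).2, fun i => ⟨?_, ?_⟩⟩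
  · obtain ⟨j, -, hj⟩ := h2 d (le_refl d)
    refine ⟨vtx (fun i => (x.1 i : ℕ)) x.2 j, fun k => vtx_bd (fun i => (x.1 i : ℕ)) x.2 j k,
      fun hl => ?_⟩
    have h3 := red_le hl
    rw [hj] at h3
    exact absurd h3 (not_le.2 i.2)
  · obtain ⟨j, -, hj⟩ := h2 i i.2.le
    exact ⟨vtx (fun i => (x.1 i : ℕ)) x.2 j, fun k => vtx_bd (fun i => (x.1 i : ℕ)) x.2 j k,
      red_spec hj⟩

/-- Kuhn's cubical lemma. -/
theorem kuhn {V : Type} [Fintype V] (p : ℕ) (hp : 0 < p) (lab : (V → ℕ) → V → Prop)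
    (h0 : ∀ x, (∀ v, x v ≤ p) → ∀ v, x v = 0 → ¬ lab x v)
    (h1 : ∀ x, (∀ v, x v ≤ p) → ∀ v, x v = p → lab x v) :
    ∃ q : V → ℕ, (∀ v, q v < p) ∧ ∀ v,
      (∃ r : V → ℕ, (∀ w, q w ≤ r w ∧ r w ≤ q w + 1) ∧ ¬ lab r v) ∧
      (∃ s : V → ℕ, (∀ w, q w ≤ s w ∧ s w ≤ q w + 1) ∧ lab s v) := by
  obtain ⟨e⟩ : Nonempty (V ≃ Fin (Fintype.card V)) := ⟨Fintype.equivFin V⟩
  obtain ⟨q, hq, hq2⟩ := kuhn_fin (Fintype.card V) p hp (fun x i => lab (fun v => x (e v)) (e.symm i))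
    (fun x hx i hi => h0 _ (fun v => hx (e v)) _ (by
      show x (e (e.symm i)) = 0
      rw [e.apply_symm_apply]
      exact hi))
    (fun x hx i hi => h1 _ (fun v => hx (e v)) _ (by
      show x (e (e.symm i)) = p
      rw [e.apply_symm_apply]
      exact hi))
  refine ⟨fun v => q (e v), fun v => hq (e v), fun v => ?_⟩
  obtain ⟨⟨r, hr, hr2⟩, s, hs, hs2⟩ := hq2 (e v)
  rw [e.symm_apply_apply] at hr2 hs2
  exact ⟨⟨fun w => r (e w), fun w => hr (e w), hr2⟩, fun w => s (e w), fun w => hs (e w), hs2⟩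

end Pool.KLT
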