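import Pool.Agent.KLT.V

/-!
# KLT-W: the total displacement is at most 16 times the number of used vertices
-/

set_option autoImplicit false

namespace Pool.KLT

open Finset
open scoped Classical

private def rh : ℕ → ℕ
  | 0 => 0
  | t + 1 => 2 * 4 ^ t

private def tk : ℕ → ℕ
  | 0 => 1
  | t + 1 => 4 ^ t

private theorem rh_mono {s s' : ℕ} (h : s ≤ s') : rh s ≤ rh s' := by
  cases s with
  | zero => exact Nat.zero_le _
  | succ t =>
    cases s' with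
    | zero => omega
    | succ t' =>
      show 2 * 4 ^ t ≤ 2 * 4 ^ t'
      exact Nat.mul_le_mul_left 2 (Nat.pow_le_pow_right (by norm_num) (by omega))

private theorem rh_tk (s : ℕ) : 4 * rh s + 2 * 4 ^ s ≤ 16 * tk s := by
  cases s with
  | zero => decide
  | succ t =>
    show 4 * (2 * 4 ^ t) + 2 * 4 ^ (t + 1) ≤ 16 * 4 ^ t
    rw [pow_succ]
    omega

private theorem cross {V : Type} (U : Finset V) (q : V → ℕ) (x0 y : V)
    (h : Relation.ReflTransGen (St U q) x0 y) (z : ℕ) (h1 : q y ≤ z) (h2 : z < q x0) :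
    ∃ x s, x ∈ U ∧ z < q x ∧ q x ≤ z + 2 * 4 ^ s ∧ ∀ t, s = t + 1 → 4 ^ t ≤ near U q x (2 * 4 ^ t) := by
  induction h with
  | refl => omega
  | tail hab hbc ih =>
    rename_i b c
    by_cases hb : q b ≤ z
    · exact ih hb
    · obtain ⟨hbU, _, s, hs, hs'⟩ := hbc
      exact ⟨b, s, hbU, by omega, by omega, hs'⟩

private theorem winCard {V : Type} (U : Finset V) (q : V → ℕ) (x : V) (hx : x ∈ U) (s : ℕ)
    (hs : ∀ t, s = t + 1 → 4 ^ t ≤ near U q x (2 * 4 ^ t)) :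
    tk s ≤ #(U.filter (fun u => |(q u : ℤ) - (q x : ℤ)| ≤ (rh s : ℤ))) := by
  cases s with
  | zero =>
    show 1 ≤ _
    rw [Nat.one_le_iff_ne_zero, Ne, Finset.card_eq_zero, ← Ne, ← Finset.nonempty_iff_ne_empty]
    refine ⟨x, Finset.mem_filter.mpr ⟨hx, ?_⟩⟩
    rw [sub_self, abs_zero]
    exact Int.natCast_nonneg _
  | succ t =>
    refine (hs t rfl).trans ?_
    unfold near
    refine Finset.card_le_card fun w hw => ?_
    rw [Finset.mem_filter] at hw ⊢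
    obtain ⟨h1, h2, h3⟩ := hw
    refine ⟨h1, ?_⟩
    have e : (rh (t + 1) : ℤ) = 2 * 4 ^ t := by
      show ((2 * 4 ^ t : ℕ) : ℤ) = 2 * 4 ^ t
      push_cast
      ring
    have h2' : (q w : ℤ) ≤ q x + 2 * 4 ^ t := by exact_mod_cast h2
    have h3' : (q x : ℤ) ≤ q w + 2 * 4 ^ t := by exact_mod_cast h3
    rw [e, abs_le]
    constructor
    · linarith
    · linarith

theorem displacement {V : Type} (U : Finset V) (q : V → ℕ) (x0 y : V)
    (h : Relation.ReflTransGen (St U q) x0 y) : q x0 ≤ q y + 16 * #U := by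
  have hex : ∀ z : ℕ, ∃ x s, q y ≤ z ∧ z < q x0 → x ∈ U ∧ z < q x ∧ q x ≤ z + 2 * 4 ^ s ∧
      ∀ t, s = t + 1 → 4 ^ t ≤ near U q x (2 * 4 ^ t) := by
    intro z
    by_cases hz : q y ≤ z ∧ z < q x0
    · obtain ⟨x, s, hxs⟩ := cross U q x0 y h z hz.1 hz.2
      exact ⟨x, s, fun _ => hxs⟩
    · exact ⟨x0, 0, fun hz' => absurd hz' hz⟩
  choose X S hXS using hex
  obtain ⟨I, hI⟩ : ∃ I : Finset ℕ, I = Ico (q y) (q x0) := ⟨_, rfl⟩
  have hIm : ∀ z ∈ I, q y ≤ z ∧ z < q x0 := by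
    intro z hz
    rw [hI, Finset.mem_Ico] at hz
    exact hz
  obtain ⟨F, hF⟩ : ∃ F : Finset (ℤ × ℕ), F = I.image (fun z => ((q (X z) : ℤ), S z)) := ⟨_, rfl⟩
  obtain ⟨C, hCF, hC1, hC2⟩ := vitali rh F
  obtain ⟨W, hW⟩ : ∃ W : ℤ × ℕ → Finset V, W = fun b => U.filter (fun u => |(q u : ℤ) - b.1| ≤ (rh b.2 : ℤ)) :=
    ⟨_, rfl⟩
  have hWc : ∀ b ∈ C, tk b.2 ≤ #(W b) := by
    intro b hb
    have hb' := hCF hb
    rw [hF, Finset.mem_image] at hb'
    obtain ⟨z, hz, rfl⟩ := hb'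
    obtain ⟨h1, _, _, h4⟩ := hXS z (hIm z hz)
    rw [hW]
    exact winCard U q (X z) h1 (S z) h4
  have hWd : ∀ a ∈ C, ∀ b ∈ C, a ≠ b → Disjoint (W a) (W b) := by
    intro a ha b hb hab
    rw [Finset.disjoint_left]
    intro u hu hu'
    rw [hW, Finset.mem_filter] at hu hu'
    have h1 := hC1 a ha b hb hab
    have h2 : |a.1 - b.1| ≤ |(q u : ℤ) - a.1| + |(q u : ℤ) - b.1| := by
      have h3 : a.1 - b.1 = ((q u : ℤ) - b.1) - ((q u : ℤ) - a.1) := by ring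
      rw [h3]
      refine (abs_sub _ _).trans (le_of_eq ?_)
      ring
    have h4 := hu.2
    have h5 := hu'.2
    linarith
  have hsum : ∑ b ∈ C, tk b.2 ≤ #U := by
    calc ∑ b ∈ C, tk b.2 ≤ ∑ b ∈ C, #(W b) := Finset.sum_le_sum hWc
      _ = #(C.biUnion W) := (Finset.card_biUnion hWd).symm
      _ ≤ #U := by
        refine Finset.card_le_card fun u hu => ?_
        obtain ⟨b, _, hb⟩ := Finset.mem_biUnion.mp hu
        rw [hW] at hb
        exact (Finset.mem_filter.mp hb).1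
  obtain ⟨J, hJ⟩ : ∃ J : ℤ × ℕ → Finset ℕ, J = fun b : ℤ × ℕ => I.filter (fun z : ℕ =>
      b.1 - 2 * rh b.2 - 2 * 4 ^ b.2 ≤ (z : ℤ) ∧ (z : ℤ) < b.1 + 2 * rh b.2) := ⟨_, rfl⟩
  have hcov : I ⊆ C.biUnion J := by
    intro z hz
    obtain ⟨_, h2, h3, _⟩ := hXS z (hIm z hz)
    have hzF : ((q (X z) : ℤ), S z) ∈ F := by
      rw [hF]
      exact Finset.mem_image.mpr ⟨z, hz, rfl⟩
    obtain ⟨b, hb, h4, h5⟩ := hC2 _ hzF
    refine Finset.mem_biUnion.mpr ⟨b, hb, ?_⟩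
    rw [hJ, Finset.mem_filter]
    refine ⟨hz, ?_⟩
    have h4' : S z ≤ b.2 := h4
    have h5' : |(q (X z) : ℤ) - b.1| ≤ (rh (S z) : ℤ) + rh b.2 := h5
    have h6 : (rh (S z) : ℤ) ≤ rh b.2 := by exact_mod_cast rh_mono h4'
    have h7 : (4 : ℤ) ^ S z ≤ 4 ^ b.2 := pow_le_pow_right₀ (by norm_num) h4'
    have h8 : (q (X z) : ℤ) ≤ z + 2 * 4 ^ S z := by exact_mod_cast h3
    have h9 : (z : ℤ) < q (X z) := by exact_mod_cast h2
    rw [abs_le] at h5'
    constructor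
    · linarith
    · linarith
  have hJc : ∀ b ∈ C, #(J b) ≤ 16 * tk b.2 := by
    intro b _
    have h1 : #(J b) ≤ #(Finset.Ico (b.1 - 2 * rh b.2 - 2 * 4 ^ b.2) (b.1 + 2 * (rh b.2 : ℤ))) := by
      refine Finset.card_le_card_of_injOn (fun z : ℕ => (z : ℤ)) ?_ ?_
      · intro z hz
        have hz' := Finset.mem_coe.mp hz
        rw [hJ, Finset.mem_filter] at hz'
        exact Finset.mem_coe.mpr (Finset.mem_Ico.mpr hz'.2)
      · intro z _ w _ hzw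
        have hzw' : (z : ℤ) = (w : ℤ) := hzw
        omega
    rw [Int.card_Ico] at h1
    have h2 : (b.1 + 2 * (rh b.2 : ℤ) - (b.1 - 2 * rh b.2 - 2 * 4 ^ b.2)).toNat = 4 * rh b.2 + 2 * 4 ^ b.2 := by
      have h3 : b.1 + 2 * (rh b.2 : ℤ) - (b.1 - 2 * rh b.2 - 2 * 4 ^ b.2) = ((4 * rh b.2 + 2 * 4 ^ b.2 : ℕ) : ℤ) := by
        push_cast
        ring
      rw [h3, Int.toNat_natCast]
    rw [h2] at h1
    exact h1.trans (rh_tk b.2)
  have hfin : #I ≤ 16 * #U := by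
    calc #I ≤ #(C.biUnion J) := Finset.card_le_card hcov
      _ ≤ ∑ b ∈ C, #(J b) := Finset.card_biUnion_le
      _ ≤ ∑ b ∈ C, 16 * tk b.2 := Finset.sum_le_sum hJc
      _ = 16 * ∑ b ∈ C, tk b.2 := by rw [Finset.mul_sum]
      _ ≤ 16 * #U := Nat.mul_le_mul_left 16 hsum
  rw [hI, Nat.card_Ico] at hfin
  omega

end Pool.KLT
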